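import Pool.Agent.N874.JM.Final
import Pool.Agent.N874.JM.Fld
import Pool.Agent.N844.PLF.All
import Pool.Agent.N844.QR.Ex

/-!
# One-cycles on the fibrations in intersections of two quadrics over the two-coverings of the line

Let `g ≥ 1`, let `k` be a finite field of characteristic larger than `2 g + 1`, `K = k(t)`, let `M` be ANY
finite Galois extension of `K` whose degree is a power of two, with arbitrary ramification, and let `C` be the
smooth projective curve with the field of functions `M` (for example the line, any hyperelliptic curve over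
`k`, or any iterated quadratic covering of the line which is Galois).

Let `V ⊂ P^(2g+1)` be a smooth complete intersection of two quadrics over `M`, of dimension `2 g - 1`, such
that a member of the pencil of the quadrics which contain `V` is defined over `M` and singular. Up to a change
of coordinates `V` is the base locus of a pencil `x A - z B` of symmetric matrices over `M` with

  `(-1)^(g+1) det (x A - z B) = m² z F(x, z)`, `F(x, 1) = f`, `m ∈ M`, `m ≠ 0`.

We consider the `V` for which `f` is monic of degree `2 g + 1` in `x` over `k[t]`, with trace zero, and order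
ALL these `f` by height. Theorem: for a positive proportion of the `f` the following local-global principle
holds for ALL the `V` over `M` with discriminant `m² z F`, `m ∈ M`:

  if `V` contains a linear subspace of dimension `g - 1` over the completions of `M` at all places which are
  not over the infinite place of `K`, then `V` contains a linear subspace of dimension `g - 1` over `M`.

Consequence for one-cycles (not formalized here). Let `g ≥ 2` and let `π : X → C` be a fibration, `X` smooth
and projective over `k` of dimension `d = 2 g ≥ 4`, whose generic fibre is such a `V`. `V` is a Fano variety,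
so `X` is separably rationally connected in codimension 1. If `V` contains a linear subspace of dimension
`g - 1` over all completions, then by the theorem it contains a line defined over `M`, and the projection
from this line is a birational map from `V` to `P^(2g-1)` (Colliot-Thélène, Sansuc and Swinnerton-Dyer). So
`X` is birational to `C × P^(2g-1)`, and the map `α_X` of the question is surjective for all `ℓ` (the
surjectivity is a birational invariant and for `C × P^(2g-1)` it is the surjectivity of
`Pic^0(C)(k) ⊗ ℤ_ℓ → H^1(k, T_ℓ Pic^0(C))`).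

Proof. The polynomial `f` is irreducible over `M`. The theory of the linear subspaces (`N844/PL`, see the
description in `MP_03ef3d_ag.PlanesOnTwoQuadrics`, and `N844/PLF` for the fields of odd characteristic) shows
that a `V` which contains subspaces over all completions gives an element of the 2-Selmer group over `M` of
the Jacobian of `y² = f(x)`, and that `V` contains a subspace over `M` if this element is zero. By project JM
(helper874) this 2-Selmer group is zero for a positive proportion of the `f`, even without conditions at the
places over infinity.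

The theorem on the 2-Selmer groups is joint work: project JM: helper874, after project PJ of helper352 and
project PM of helper874, with parts by helpers 123, 301, 352, 507, 615, 738, 814, and, from PJ, PM and PP, 2,
50, 55, 87, 134, 160, 169, 195, 227, 262, 270, 401, 402, 415, 427, 434, 490, 498, 530, 539, 568, 572, 588,
603, 622, 655, 697, 704, 765, 769, 787. The theory of the planes (`N844/PL`, `N844/PLF`) and of the pencils
(`N844/QR`): helper844.
-/

set_option autoImplicit false
set_option linter.all false

open Finset Matrix Polynomial IsDedekindDomain Filter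

namespace Pool.Agent.Results.MP_5d1731_ag.PlanesOverTwoCovers

/-! ### Pencils of quadrics and linear subspaces -/

section pencils

variable {K : Type} [Field K]

/-- the homogeneous form `F(x, z)` of degree `2 g + 1` of `f` -/
def form (g : ℕ) (f : K[X]) (x z : K) : K :=
  ∑ i ∈ range (2 * g + 2), f.coeff i * x ^ i * z ^ (2 * g + 1 - i)

/-- the matrices of size `2 g + 2` -/
abbrev Mat (g : ℕ) (K : Type) : Type := Matrix (Fin (2 * g + 2)) (Fin (2 * g + 2)) K

/-- the quadratic form of a matrix -/
def qf {N : ℕ} (A : Matrix (Fin N) (Fin N) K) (y : Fin N → K) : K := y ⬝ᵥ (A *ᵥ y)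

/-- the pencils with discriminant `m ^ 2 z F(x, z)` -/
structure IsPencil (g : ℕ) (f : K[X]) (m : K) (A B : Mat g K) : Prop where
  symA : A.IsSymm
  symB : B.IsSymm
  disc : ∀ x z : K, (-1) ^ (g + 1) * (x • A - z • B).det = m ^ 2 * (z * form g f x z)

/-- the base locus `X` of the pencil is smooth (Jacobian criterion at the points over `K`) -/
def Smooth {N : ℕ} (A B : Matrix (Fin N) (Fin N) K) : Prop :=
  ∀ y : Fin N → K, y ≠ 0 → qf A y = 0 → qf B y = 0 → LinearIndependent K ![A *ᵥ y, B *ᵥ y]

/-- there is a vector space `W` of dimension `d` over `K` on which both quadratic forms are zero -/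
def HasSpace {N : ℕ} (d : ℕ) (A B : Matrix (Fin N) (Fin N) K) : Prop :=
  ∃ W : Submodule K (Fin N → K), Module.finrank K W = d ∧ ∀ y ∈ W, qf A y = 0 ∧ qf B y = 0

/-- The base locus `X` of the pencil contains a linear subspace of dimension `g - 1` defined over the field
`E`, for a pencil over `K` and a map `φ` from `K` to `E`: there is a vector space of dimension `g` over `E`
on which both quadratic forms are zero. -/
def HasPlane {g : ℕ} {E : Type} [Field E] (φ : K →+* E) (A B : Mat g K) : Prop :=
  HasSpace g (A.map φ) (B.map φ)

end pencils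

/-- For all the pencils over `M` with discriminant `m ^ 2 z F(x, z)`, `m ≠ 0`: if the base locus contains a
linear subspace of dimension `g - 1` over the completions of `M` at all maximal ideals of the Dedekind ring
`R` with field of fractions `M`, then it contains a linear subspace of dimension `g - 1` over `M`. -/
def LocalGlobal (R : Type) {M : Type} [Field M] [CommRing R] [IsDedekindDomain R] [Algebra R M]
    [IsFractionRing R M] (g : ℕ) (f : M[X]) : Prop :=
  ∀ (m : M) (A B : Mat g M), m ≠ 0 → IsPencil g f m A B →
    (∀ v : HeightOneSpectrum R, HasPlane (algebraMap M (v.adicCompletion M)) A B) →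
    HasPlane (RingHom.id M) A B

/-! ### The polynomials `f` -/

/-- `f` is monic of degree `2 g + 1` in `x` with trace zero, separable, of height at most `N`, and minimal. -/
structure IsPoly {k : Type} [Field k] (K : Type) [Field K] [Algebra k[X] K] (g N : ℕ)
    (f : k[X][X]) : Prop where
  monic : f.Monic
  degree : f.natDegree = 2 * g + 1
  trace : f.coeff (2 * g) = 0
  height : ∀ j ≤ 2 * g, (f.coeff j).natDegree ≤ N * (2 * g + 1 - j)
  smooth : (f.map (algebraMap k[X] K)).Separable
  minimal : ∀ P : k[X], Irreducible P →
    ¬ ∀ j < 2 * g + 1, P ^ (2 * (2 * g + 1 - j)) ∣ f.coeff j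

/-- The polynomials `f` of height at most `N`. -/
def Polys (k : Type) [Field k] (K : Type) [Field K] [Algebra k[X] K] (g N : ℕ) : Set k[X][X] :=
  {f | IsPoly K g N f}

/-- The `f` of height at most `N` which are irreducible over `M` and for which the local-global principle
holds for all the pencils over `M` with discriminant `m ^ 2 z F(x, z)`. -/
def Good (R : Type) (M : Type) [Field M] [CommRing R] [IsDedekindDomain R] [Algebra R M]
    [IsFractionRing R M] (k : Type) [Field k] (K : Type) [Field K] [Algebra k[X] K]
    [Algebra k[X] M] (g N : ℕ) : Set k[X][X] :=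
  {f ∈ Polys k K g N | Irreducible (f.map (algebraMap k[X] M)) ∧
    LocalGlobal R g (f.map (algebraMap k[X] M))}

/-- a positive proportion of the `f` ordered by height is good -/
def PositiveProportion (R : Type) (M : Type) [Field M] [CommRing R] [IsDedekindDomain R]
    [Algebra R M] [IsFractionRing R M] (k : Type) [Field k] (K : Type) [Field K] [Algebra k[X] K]
    [Algebra k[X] M] (g : ℕ) : Prop :=
  (∀ N : ℕ, (Polys k K g N).Finite) ∧ ∃ c : ℝ, 0 < c ∧ ∀ᶠ N : ℕ in atTop,
    0 < (Polys k K g N).ncard ∧ c * ((Polys k K g N).ncard : ℝ) ≤ ((Good R M k K g N).ncard : ℝ)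

section proof

variable {g : ℕ}

theorem plane_iff {K : Type} [Field K] (A B : Mat g K) :
    HasPlane (RingHom.id K) A B ↔ Pool.Agent.N844.PL.HasPl g A B := by
  unfold HasPlane
  rw [show A.map (RingHom.id K) = A from Matrix.map_id A,
    show B.map (RingHom.id K) = B from Matrix.map_id B]
  exact Iff.rfl

theorem pen {K : Type} [Field K] {f : K[X]} {m : K} {A B : Mat g K} (h : IsPencil g f m A B) :
    Pool.Agent.N844.QR.IsPen g f m A B := ⟨h.symA, h.symB, h.disc⟩

/-- the local condition in terms of polynomials -/
theorem loc {F : Type} [Field F] [Infinite F] {K : Type} [Field K] [Infinite K] (h2 : (2 : K) ≠ 0)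
    (φ : F →+* K) {f : F[X]} (hf : f.Monic)
    (hd : f.natDegree = 2 * g + 1) (hs : f.Separable) {h : F[X]} (hh : IsCoprime h f)
    (hN : IsSquare (Algebra.norm F (AdjoinRoot.mk f h))) {c : F} (hc : c ≠ 0) {P A B : Mat g F}
    (hP : P.det ≠ 0) (hA : Pᵀ * A * P = c • Pool.Agent.N844.PL.quadA g f h)
    (hB : Pᵀ * B * P = c • Pool.Agent.N844.PL.quadB g f h) (hpl : HasPlane φ A B) :
    ∃ (l : List (K[X] × K[X])) (s : K[X]),
      (∀ p ∈ l, p.1.Monic ∧ IsCoprime p.1 (f.map φ) ∧ p.1 ∣ p.2 ^ 2 - f.map φ) ∧
      f.map φ ∣ h.map φ * (l.map fun p => (-1) ^ p.1.natDegree * p.1).prod - s ^ 2 := by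
  refine Pool.Agent.N844.PLF.loc_map φ hf hd h2 hs h hh hN ?_
  refine Pool.Agent.N844.PL.pl_to (c := φ c) (P := P.map φ) ?_ ?_
    (Pool.Agent.N844.PL.map_conj φ hA) (Pool.Agent.N844.PL.map_conj φ hB) hpl
  · rwa [Ne, map_eq_zero]
  · have e : (P.map φ).det = φ P.det := by
      rw [RingHom.map_det]
      rfl
    rw [e]
    rwa [Ne, map_eq_zero]

/-- from the explicit 2-Selmer group to the planes -/
theorem localGlobal (R : Type) {M : Type} [Field M] [Infinite M] [CommRing R] [IsDedekindDomain R]
    [Algebra R M] [IsFractionRing R M] (h2 : (2 : M) ≠ 0) {f : M[X]} (hf : f.Monic)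
    (hd : f.natDegree = 2 * g + 1) (hi : Irreducible f) (hsep : f.Separable)
    (hs : Pool.Agent.N874.JM.SelF R f) : LocalGlobal R g f := by
  intro m A B hm hpen hv
  obtain ⟨h, c, P, hh, hN, hc, hP, hA, hB⟩ :=
    Pool.Agent.N844.PLF.normal hf hd h2 hi A B m hm (pen hpen)
  obtain ⟨s, hs'⟩ := hs h hh hN (fun v => by
      haveI : Infinite (v.adicCompletion M) :=
        Infinite.of_injective _ (algebraMap M (v.adicCompletion M)).injective
      have h2v : (2 : v.adicCompletion M) ≠ 0 := by
        have h3 : algebraMap M (v.adicCompletion M) 2 ≠ 0 := by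
          rwa [Ne, map_eq_zero]
        rwa [map_ofNat] at h3
      exact loc h2v (algebraMap M (v.adicCompletion M)) hf hd hsep hh hN hc hP hA hB (hv v))
  exact (plane_iff A B).2 (Pool.Agent.N844.PL.pl_from hP hA hB
    (Pool.Agent.N844.PL.plane_of_sq hf hd h hh s hs'))

end proof

/-- **Theorem.** For every `g ≥ 1`, every finite field `k` of characteristic larger than `2 g + 1` and every
finite Galois extension `M` of `K = k(t)` of degree `2 ^ n` there is a positive constant `c` such that for all
large `N` at least `c` times the number of all the `f` of height at most `N` are irreducible over `M` and such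
that for ALL the pencils of quadrics in `P^(2g+1)` over `M` with discriminant `m ^ 2 z F(x, z)`, `m ∈ M`, the
following is true: if the base locus contains a linear subspace of dimension `g - 1` over the completions of
`M` at all maximal ideals of `R`, the integral closure of `k[t]` in `M`, then it contains a linear subspace
of dimension `g - 1` over `M`. For all separable `f` the base loci of these pencils are smooth over all
fields which contain `M`, and for every `f` there is a pencil with `m = 1` whose base locus contains a linear
subspace of dimension `g - 1`. -/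
theorem result (g : ℕ) (hg : 1 ≤ g) (k : Type) [Field k] [Finite k]
    (hp : ((2 * g + 1).factorial : k) ≠ 0) (K : Type) [Field K] [Algebra k[X] K]
    [IsFractionRing k[X] K] (M : Type) [Field M] [Algebra K M] [Algebra k[X] M]
    [IsScalarTower k[X] K M] [FiniteDimensional K M] [IsGalois K M] (n : ℕ)
    (hn : Module.finrank K M = 2 ^ n) (R : Type) [CommRing R] [IsDedekindDomain R] [Algebra R M]
    [IsFractionRing R M] [Algebra k[X] R] [IsScalarTower k[X] R M] [IsIntegralClosure R k[X] M] :
    PositiveProportion R M k K g ∧
    ∀ f : M[X], f.Monic → f.natDegree = 2 * g + 1 → f.Separable →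
      (∀ (m : M) (A B : Mat g M), m ≠ 0 → IsPencil g f m A B →
        ∀ (E : Type) [Field E] (φ : M →+* E), Smooth (A.map φ) (B.map φ)) ∧
      ∃ A B : Mat g M, IsPencil g f 1 A B ∧ HasPlane (RingHom.id M) A B := by
  classical
  have h2 : (2 : k) ≠ 0 := by
    intro h0
    apply hp
    have hd : 2 ∣ (2 * g + 1).factorial := Nat.dvd_factorial (by norm_num) (by omega)
    obtain ⟨e, he⟩ := hd
    rw [he, Nat.cast_mul, Nat.cast_ofNat, h0, zero_mul]
  have hinjK : Function.Injective (algebraMap k[X] K) := IsFractionRing.injective k[X] K
  have hinjM : Function.Injective (algebraMap k[X] M) := by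
    rw [IsScalarTower.algebraMap_eq k[X] K M]
    exact (algebraMap K M).injective.comp hinjK
  haveI : Infinite M := Infinite.of_injective _ hinjM
  have h2M : (2 : M) ≠ 0 := by
    have h3 : algebraMap k[X] M (C 2) ≠ 0 := by
      rw [Ne, map_eq_zero_iff _ hinjM, C_eq_zero]
      exact h2
    rwa [show (C (2 : k) : k[X]) = 2 from map_ofNat C 2, map_ofNat] at h3
  refine ⟨?_, ?_⟩
  · have hsub : ∀ N, Polys k K g N ⊆ {f : k[X][X] | Pool.Agent.N352.PJ.Ht g N f} :=
      fun N f hf => ⟨hf.monic, hf.degree, hf.trace, hf.height⟩
    have hfin : ∀ N, (Polys k K g N).Finite := fun N =>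
      (Pool.Agent.N415.PJMAIN.ht_card (k := k) g N).1.subset (hsub N)
    refine ⟨hfin, ?_⟩
    obtain ⟨c, hc, N₀, hN₀⟩ := Pool.Agent.N874.JM.final k hg hp K M R hn
    refine ⟨c, hc, ?_⟩
    filter_upwards [eventually_ge_atTop N₀] with N hN
    obtain ⟨hHt, hle⟩ := hN₀ N hN
    have hsub2 : {f : k[X][X] | Pool.Agent.N352.PJ.Ht g N f ∧ Pool.Agent.N352.PJ.Mini g f ∧
        (f.map (algebraMap k[X] K)).Separable ∧ Irreducible (f.map (algebraMap k[X] K)) ∧
        Pool.Agent.N874.JM.SelF R (f.map (algebraMap k[X] M))} ⊆ Good R M k K g N :=
      fun f hf => by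
        have hmap : f.map (algebraMap k[X] M) =
            (f.map (algebraMap k[X] K)).map (algebraMap K M) := by
          rw [Polynomial.map_map, ← IsScalarTower.algebraMap_eq]
        have hm : (f.map (algebraMap k[X] M)).Monic := hf.1.mon.map _
        have hd : (f.map (algebraMap k[X] M)).natDegree = 2 * g + 1 := by
          rw [hf.1.mon.natDegree_map]
          exact hf.1.deg
        have hi : Irreducible (f.map (algebraMap k[X] M)) := by
          rw [hmap]
          refine Pool.Agent.N874.JM.irr_up hn hf.2.2.2.1 (hf.1.mon.map _) ?_
          rw [hf.1.mon.natDegree_map, hf.1.deg]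
          exact odd_two_mul_add_one g
        have hs : (f.map (algebraMap k[X] M)).Separable := by
          rw [hmap]
          exact hf.2.2.1.map
        exact ⟨⟨hf.1.mon, hf.1.deg, hf.1.tr, hf.1.ht, hf.2.2.1, hf.2.1⟩, hi,
          localGlobal R h2M hm hd hi hs hf.2.2.2.2⟩
    have hfin2 : (Good R M k K g N).Finite := (hfin N).subset fun f hf => hf.1
    have h1 := Set.ncard_le_ncard hsub2 hfin2
    have h2 : c * ({f : k[X][X] | Pool.Agent.N352.PJ.Ht g N f}.ncard : ℝ) ≤
        ((Good R M k K g N).ncard : ℝ) := hle.trans (by exact_mod_cast h1)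
    have hne : 0 < {f : k[X][X] | Pool.Agent.N352.PJ.Ht g N f}.ncard := by
      rw [Set.ncard_pos hHt]
      refine ⟨X ^ (2 * g + 1), monic_X_pow _, natDegree_X_pow _, ?_, fun j hj => ?_⟩
      · rw [coeff_X_pow, if_neg (by omega)]
      · rw [coeff_X_pow, if_neg (by omega), natDegree_zero]
        exact Nat.zero_le _
    have h3 : 0 < ((Good R M k K g N).ncard : ℝ) := by
      refine lt_of_lt_of_le ?_ h2
      exact mul_pos hc (by exact_mod_cast hne)
    refine ⟨?_, ?_⟩
    · have h4 := Set.ncard_le_ncard (s := Good R M k K g N) (t := Polys k K g N)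
        (fun f hf => hf.1) (hfin N)
      have h5 : 0 < (Good R M k K g N).ncard := by exact_mod_cast h3
      omega
    · refine le_trans ?_ h2
      have h4 := Set.ncard_le_ncard (hsub N) hHt
      exact mul_le_mul_of_nonneg_left (by exact_mod_cast h4) hc.le
  · intro f hf hd hs
    refine ⟨fun m A B hm h E _ φ y hy h6 h7 => ?_, ?_⟩
    · exact (pen h).smooth φ hf hd (by rwa [Ne, map_eq_zero]) hs.map hy h6 h7
    · have h' := Pool.Agent.N844.QR.ex_pen hf hd
      refine ⟨Pool.Agent.N844.QR.eA hf hd, Pool.Agent.N844.QR.eB hf hd,
        ⟨h'.symA, h'.symB, h'.disc⟩, (plane_iff _ _).2 ?_⟩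
      rw [Pool.Agent.N844.PL.eA_eq hf hd, Pool.Agent.N844.PL.eB_eq hf hd]
      exact Pool.Agent.N844.PL.plane_of_sq hf hd 1 isCoprime_one_left 1 (by simp)

end Pool.Agent.Results.MP_5d1731_ag.PlanesOverTwoCovers
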